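import Pool.Agent.Q68.LD.Tr

/-!
# Project LD, job LDA: the level of distribution of all random sets of the class
-/

set_option autoImplicit false

namespace Pool.Agent.Q68.LD

open Finset MeasureTheory Filter Pool.Agent.Q120.ET Pool.Agent.Q120.GM Pool.Agent.Q120.GE
  Pool.Agent.Q120.LD
open scoped Topology

/-- the event -/
def FL (θ η : ℝ) (k : ℕ) (S : Set ℕ) : Prop :=
  ∃ (x : ℕ) (a : ℕ → ℕ), 2 ^ k ≤ x ∧ x < 2 ^ (k + 1) ∧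
    (x : ℝ) ^ (1 - η) ≤ ∑ q ∈ Icc 1 ⌊(x : ℝ) ^ θ⌋₊, dev S q (a q) x

theorem FL_tr (θ η : ℝ) (Ω : Type) [MeasurableSpace Ω] (A : Ω → Set ℕ) (k : ℕ) (ω : Ω) :
    FL θ η k ((tr A (low (k + 1)) ω : Finset ℕ) : Set ℕ) ↔ FL θ η k (A ω) := by
  unfold FL
  refine exists_congr fun x => exists_congr fun a => and_congr_right fun _ =>
    and_congr_right fun hx => ?_
  have h : ∑ q ∈ Icc 1 ⌊(x : ℝ) ^ θ⌋₊, dev ((tr A (low (k + 1)) ω : Finset ℕ) : Set ℕ) q (a q) x =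
      ∑ q ∈ Icc 1 ⌊(x : ℝ) ^ θ⌋₊, dev (A ω) q (a q) x :=
    sum_congr rfl fun q _ => dev_tr A ω hx q (a q)
  rw [h]

/-- from large `x` to all `x` -/
theorem level_of (S : Set ℕ) (θ η : ℝ) (hη : 0 < η) (hθ : θ ≤ 1)
    (h : ∀ᶠ k : ℕ in atTop, ¬ FL θ η k S) (θ' : ℝ) (hθ' : θ' ≤ θ) :
    ∃ η C : ℝ, 0 < η ∧ ∀ (x : ℕ) (a : ℕ → ℕ), 1 ≤ x →
      ∑ q ∈ Icc 1 ⌊(x : ℝ) ^ θ'⌋₊, dev S q (a q) x ≤ C * (x : ℝ) ^ (1 - η) := by
  obtain ⟨K, hK⟩ := eventually_atTop.1 h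
  refine ⟨min η 1, max 1 (2 * 4 ^ K), lt_min hη one_pos, fun x a hx => ?_⟩
  have hx1 : (1 : ℝ) ≤ x := by exact_mod_cast hx
  have hmono : ∑ q ∈ Icc 1 ⌊(x : ℝ) ^ θ'⌋₊, dev S q (a q) x ≤
      ∑ q ∈ Icc 1 ⌊(x : ℝ) ^ θ⌋₊, dev S q (a q) x := by
    refine sum_le_sum_of_subset_of_nonneg ?_ fun q _ _ => dev_nonneg _ _ _ _
    exact Icc_subset_Icc_right (Nat.floor_mono (Real.rpow_le_rpow_of_exponent_le hx1 hθ'))
  refine hmono.trans ?_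
  have hC1 : (1 : ℝ) ≤ max 1 (2 * 4 ^ K) := le_max_left _ _
  have hpow : (0 : ℝ) ≤ (x : ℝ) ^ (1 - min η 1) := by positivity
  by_cases hxK : 2 ^ K ≤ x
  · obtain ⟨k, hk1, hk2, hk3⟩ := block hxK
    have h1 : ∑ q ∈ Icc 1 ⌊(x : ℝ) ^ θ⌋₊, dev S q (a q) x < (x : ℝ) ^ (1 - η) := by
      by_contra hcon
      push Not at hcon
      exact hK k hk1 ⟨x, a, hk2, hk3, hcon⟩
    have h2 : (x : ℝ) ^ (1 - η) ≤ (x : ℝ) ^ (1 - min η 1) :=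
      Real.rpow_le_rpow_of_exponent_le hx1 (by linarith [min_le_left η 1])
    nlinarith
  · push Not at hxK
    have hx2 : (x : ℝ) ≤ 2 ^ K := by exact_mod_cast hxK.le
    have h1 : (1 : ℝ) ≤ (x : ℝ) ^ (1 - min η 1) :=
      Real.one_le_rpow hx1 (by linarith [min_le_right η 1])
    have h2 : ∑ q ∈ Icc 1 ⌊(x : ℝ) ^ θ⌋₊, dev S q (a q) x ≤ (x : ℝ) * (2 * x) := by
      calc ∑ q ∈ Icc 1 ⌊(x : ℝ) ^ θ⌋₊, dev S q (a q) x
          ≤ ∑ q ∈ Icc 1 ⌊(x : ℝ) ^ θ⌋₊, (2 * x : ℝ) := sum_le_sum fun q _ => dev_le _ _ _ _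
        _ = (⌊(x : ℝ) ^ θ⌋₊ : ℝ) * (2 * x) := by simp
        _ ≤ (x : ℝ) * (2 * x) := by
            refine mul_le_mul_of_nonneg_right ?_ (by positivity)
            refine (Nat.floor_le (by positivity)).trans ?_
            calc (x : ℝ) ^ θ ≤ (x : ℝ) ^ (1 : ℝ) := Real.rpow_le_rpow_of_exponent_le hx1 hθ
              _ = x := Real.rpow_one _
    have h3 : (x : ℝ) * (2 * x) ≤ 2 * 4 ^ K := by
      have h4 : (x : ℝ) * x ≤ 2 ^ K * 2 ^ K :=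
        mul_le_mul hx2 hx2 (by positivity) (by positivity)
      have h5 : (2 : ℝ) ^ K * 2 ^ K = 4 ^ K := by
        rw [← mul_pow]
        norm_num
      rw [h5] at h4
      linarith
    calc ∑ q ∈ Icc 1 ⌊(x : ℝ) ^ θ⌋₊, dev S q (a q) x ≤ 2 * 4 ^ K := h2.trans h3
      _ ≤ max 1 (2 * 4 ^ K) := le_max_right _ _
      _ = max 1 (2 * 4 ^ K) * 1 := (mul_one _).symm
      _ ≤ max 1 (2 * 4 ^ K) * (x : ℝ) ^ (1 - min η 1) :=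
          mul_le_mul_of_nonneg_left h1 (by linarith)

theorem t_LDA : J_LDA := by
  intro h1 h2 h3 h4 h5 δ hδ hδ1 Ω _ μ _ A hA hD
  have key : ∀ j : ℕ, ∃ η : ℝ, 0 < η ∧ ∀ᵐ ω ∂μ, ∀ᶠ k : ℕ in atTop,
      ¬ FL ((1 - δ / 2) - 1 / (2 * ((j : ℝ) + 1))) η k (A ω) := by
    intro j
    have hj : (0 : ℝ) ≤ j := Nat.cast_nonneg j
    have hj1 : 1 / (2 * ((j : ℝ) + 1)) ≤ 1 / 2 :=
      one_div_le_one_div_of_le (by norm_num) (by linarith)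
    have hj2 : 0 < 1 / (2 * ((j : ℝ) + 1)) := by positivity
    obtain ⟨η, hη, hm⟩ := h5 h1 h2 h3 h4 δ ((1 - δ / 2) - 1 / (2 * ((j : ℝ) + 1))) hδ hδ1
      (by linarith) (by linarith)
    exact ⟨η, hη, transfer (FL _ η) (fun Ω _ A k ω => FL_tr _ η Ω A k ω) δ η hδ hη hm μ A hA hD⟩
  choose η hη hae using key
  filter_upwards [ae_all_iff.2 hae] with ω hω θ' hθ'
  obtain ⟨j, hj⟩ := exists_nat_gt (1 / (2 * ((1 - δ / 2) - θ')))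
  have hpos : 0 < (1 - δ / 2) - θ' := by linarith
  have hj0 : (0 : ℝ) ≤ j := Nat.cast_nonneg j
  refine level_of (A ω) _ (η j) (hη j) ?_ (hω j) θ' ?_
  · have : 0 < 1 / (2 * ((j : ℝ) + 1)) := by positivity
    linarith
  · have h6 : 1 / (2 * ((j : ℝ) + 1)) ≤ (1 - δ / 2) - θ' := by
      rw [div_lt_iff₀ (by positivity)] at hj
      rw [div_le_iff₀ (by positivity)]
      nlinarith
    linarith

end Pool.Agent.Q68.LD
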