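import Pool.Agent.Q289.LD.Stm

/-!
# Project LD (helper289), job SUP: elementary properties of the sup-convolution
-/

set_option autoImplicit false

open MeasureTheory Set
open Pool.Agent.W695.KH (Eu EU Sm Pot WPo)
open Q289.LD

namespace Pool.Agent.Q68.LD

theorem sup : S_SUP := by
  intro κ _ ρ hρ M c hE A hA
  obtain ⟨hM, hc, hb⟩ := hE
  have hM' : ∀ y, ρ y ≤ M := fun y => by
    refine (hb y).trans ?_
    have h1 : Real.exp (-(c * ‖y‖)) ≤ 1 := by
      rw [Real.exp_le_one_iff, neg_nonpos]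
      exact mul_nonneg hc.le (norm_nonneg y)
    calc M * Real.exp (-(c * ‖y‖)) ≤ M * 1 := mul_le_mul_of_nonneg_left h1 hM.le
      _ = M := mul_one M
  have hle1 : ∀ (B : ℝ), 0 < B → ∀ (x y : Eu κ), Real.exp (-(B / 2 * ‖x - y‖ ^ 2)) ≤ 1 := by
    intro B hB x y
    rw [Real.exp_le_one_iff, neg_nonpos]
    exact mul_nonneg (by linarith) (sq_nonneg _)
  have hleρ : ∀ (B : ℝ), 0 < B → ∀ (x y : Eu κ),
      ρ y * Real.exp (-(B / 2 * ‖x - y‖ ^ 2)) ≤ ρ y := by
    intro B hB x y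
    calc ρ y * Real.exp (-(B / 2 * ‖x - y‖ ^ 2)) ≤ ρ y * 1 :=
          mul_le_mul_of_nonneg_left (hle1 B hB x y) (hρ.nonneg y)
      _ = ρ y := mul_one _
  have hbdd : ∀ (B : ℝ), 0 < B → ∀ x : Eu κ,
      BddAbove (Set.range fun y => ρ y * Real.exp (-(B / 2 * ‖x - y‖ ^ 2))) := by
    intro B hB x
    refine ⟨M, ?_⟩
    rintro _ ⟨y, rfl⟩
    exact (hleρ B hB x y).trans (hM' y)
  refine ⟨fun x => ?_, fun x => ?_, fun x => ?_, fun x δ m hδ hm h => ?_, fun A' hA' x => ?_⟩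
  · have hex : ∃ y, 0 < ρ y := by
      by_contra hcon
      push Not at hcon
      have h0 : ρ = fun _ => 0 := funext fun y => le_antisymm (hcon y) (hρ.nonneg y)
      have h1 := hρ.mass
      rw [h0, integral_zero] at h1
      exact zero_ne_one h1
    obtain ⟨y, hy⟩ := hex
    have h1 : 0 < ρ y * Real.exp (-(A / 2 * ‖x - y‖ ^ 2)) := mul_pos hy (Real.exp_pos _)
    exact lt_of_lt_of_le h1 (le_ciSup (hbdd A hA x) y)
  · have h1 := le_ciSup (hbdd A hA x) x
    simp only [sub_self, norm_zero] at h1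
    have h2 : ρ x * Real.exp (-(A / 2 * 0 ^ 2)) = ρ x := by
      rw [zero_pow two_ne_zero, mul_zero, neg_zero, Real.exp_zero, mul_one]
    rw [h2] at h1
    exact h1
  · refine ciSup_le fun y => ?_
    have h1 : ‖x‖ ≤ ‖y‖ + ‖x - y‖ := by
      calc ‖x‖ = ‖y + (x - y)‖ := by rw [add_sub_cancel]
        _ ≤ ‖y‖ + ‖x - y‖ := norm_add_le _ _
    have h2 : c * ‖x - y‖ ≤ A / 2 * ‖x - y‖ ^ 2 + c ^ 2 / (2 * A) := by
      have h3 : A / 2 * ‖x - y‖ ^ 2 + c ^ 2 / (2 * A) - c * ‖x - y‖ =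
          (A * ‖x - y‖ - c) ^ 2 / (2 * A) := by
        field_simp
        ring
      have h4 : 0 ≤ (A * ‖x - y‖ - c) ^ 2 / (2 * A) := by positivity
      linarith
    have h3 : c * ‖x‖ ≤ c * ‖y‖ + c * ‖x - y‖ := by
      rw [← mul_add]
      exact mul_le_mul_of_nonneg_left h1 hc.le
    calc ρ y * Real.exp (-(A / 2 * ‖x - y‖ ^ 2))
        ≤ (M * Real.exp (-(c * ‖y‖))) * Real.exp (-(A / 2 * ‖x - y‖ ^ 2)) :=
          mul_le_mul_of_nonneg_right (hb y) (Real.exp_pos _).le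
      _ = M * Real.exp (-(c * ‖y‖) + -(A / 2 * ‖x - y‖ ^ 2)) := by
          rw [Real.exp_add, mul_assoc]
      _ ≤ M * Real.exp (c ^ 2 / (2 * A) + -(c * ‖x‖)) := by
          refine mul_le_mul_of_nonneg_left (Real.exp_le_exp.2 ?_) hM.le
          linarith
      _ = M * Real.exp (c ^ 2 / (2 * A)) * Real.exp (-(c * ‖x‖)) := by
          rw [Real.exp_add, mul_assoc]
  · refine ciSup_le fun y => ?_
    by_cases hy : ‖x - y‖ < δ
    · exact ((hleρ A hA x y).trans (h y hy)).trans (le_max_left _ _)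
    · push Not at hy
      refine le_trans ?_ (le_max_right _ _)
      have h1 : δ ^ 2 ≤ ‖x - y‖ ^ 2 := pow_le_pow_left₀ hδ.le hy 2
      have h2 : Real.exp (-(A / 2 * ‖x - y‖ ^ 2)) ≤ Real.exp (-(A / 2 * δ ^ 2)) := by
        refine Real.exp_le_exp.2 (neg_le_neg ?_)
        exact mul_le_mul_of_nonneg_left h1 (by linarith)
      exact mul_le_mul (hM' y) h2 (Real.exp_pos _).le hM.le
  · refine ciSup_mono (hbdd A hA x) fun y => ?_
    refine mul_le_mul_of_nonneg_left (Real.exp_le_exp.2 (neg_le_neg ?_)) (hρ.nonneg y)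
    exact mul_le_mul_of_nonneg_right (by linarith) (sq_nonneg _)

end Pool.Agent.Q68.LD
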