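import Mathlib

/-! Ball averages, ergodic averages and the Lebesgue differentiation property. -/

open MeasureTheory Filter Topology

namespace Q68.LD

variable {X : Type*} [MetricSpace X] [MeasurableSpace X]

/-- The average of `g` over the open ball `B(x, r)`. -/
noncomputable def ballAvg (μ : Measure X) (r : ℝ) (g : X → ℝ) (x : X) : ℝ :=
  (μ.real (Metric.ball x r))⁻¹ * ∫ y in Metric.ball x r, g y ∂μ

/-- The Lebesgue differentiation property. -/
def LebesgueDifferentiation (μ : Measure X) : Prop :=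
  ∀ f : X → ℝ, Integrable f μ →
    ∀ᵐ x ∂μ, Tendsto (fun r => ballAvg μ r f x) (𝓝[>] 0) (𝓝 (f x))

omit [MetricSpace X] [MeasurableSpace X] in
/-- The ergodic average `A_k f = (1/k) ∑_{j<k} f ∘ T^j`. -/
noncomputable def ergAvg (T : X → X) (k : ℕ) (f : X → ℝ) (x : X) : ℝ :=
  (∑ j ∈ Finset.range k, f (T^[j] x)) / k

/-- `U_{r,k} f (x) → f*(x)` as `r ↘ 0`, `k → ∞`, where `f*` is the conditional expectation of `f`
with respect to the σ-algebra of `T`-invariant measurable sets. -/
def JointConvergence (μ : Measure X) (T : X → X) (f : X → ℝ) (x : X) : Prop :=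
  ∀ ε > 0, ∃ δ > 0, ∃ K : ℕ, ∀ (r : ℝ) (k : ℕ), 0 < r → r < δ → K ≤ k →
    |ballAvg μ r (ergAvg T k f) x - (μ[f | MeasurableSpace.invariants T]) x| < ε

end Q68.LD
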