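import Mathlib
import Pool.Agent.Q68.PET

/-! The ergodic maximal function of an `L^p` function, `p > 1`, is integrable. -/

open MeasureTheory Filter Topology Set
open scoped ENNReal

namespace Q68.LD

open Q68.PET

variable {X : Type*} [MeasurableSpace X] {μ : Measure X} {T : X → X}

lemma le_tsum_indicator (m : ℝ≥0∞) : m ≤ ∑' n : ℕ, (if (n : ℝ≥0∞) < m then (1 : ℝ≥0∞) else 0) := by
  rcases eq_or_ne m ∞ with h | h
  · subst h
    have : ∀ n : ℕ, (if (n : ℝ≥0∞) < ∞ then (1 : ℝ≥0∞) else 0) = 1 := fun n =>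
      if_pos (ENNReal.natCast_lt_top n)
    simp_rw [this]
    rw [ENNReal.tsum_const_eq_top_of_ne_zero one_ne_zero]
  · lift m to NNReal using h
    calc (m : ℝ≥0∞) ≤ ((⌈m⌉₊ : ℕ) : ℝ≥0∞) := by exact_mod_cast Nat.le_ceil m
      _ = ∑ n ∈ Finset.range ⌈m⌉₊, (1 : ℝ≥0∞) := by simp
      _ = ∑ n ∈ Finset.range ⌈m⌉₊, (if (n : ℝ≥0∞) < m then (1 : ℝ≥0∞) else 0) := by
          refine Finset.sum_congr rfl fun n hn => ?_
          rw [if_pos]
          have := Nat.lt_ceil.1 (Finset.mem_range.1 hn)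
          exact_mod_cast this
      _ ≤ _ := ENNReal.sum_le_tsum _

lemma lintegral_le_tsum {M : X → ℝ≥0∞} (hM : Measurable M) :
    ∫⁻ x, M x ∂μ ≤ ∑' n : ℕ, μ {x | (n : ℝ≥0∞) < M x} := by
  calc ∫⁻ x, M x ∂μ ≤ ∫⁻ x, ∑' n : ℕ, (if (n : ℝ≥0∞) < M x then (1 : ℝ≥0∞) else 0) ∂μ :=
        lintegral_mono fun x => le_tsum_indicator (M x)
    _ = ∑' n : ℕ, ∫⁻ x, (if (n : ℝ≥0∞) < M x then (1 : ℝ≥0∞) else 0) ∂μ := by
        rw [lintegral_tsum]
        intro n
        exact (Measurable.ite (measurableSet_lt measurable_const hM) measurable_const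
          measurable_const).aemeasurable
    _ = _ := by
        refine tsum_congr fun n => ?_
        have : (fun x => if (n : ℝ≥0∞) < M x then (1 : ℝ≥0∞) else 0) =
            {x | (n : ℝ≥0∞) < M x}.indicator (fun _ => 1) := by
          funext x
          simp only [indicator, mem_ofPred_eq]
        rw [this, lintegral_indicator (measurableSet_lt measurable_const hM)]
        simp

omit [MeasurableSpace X] in
/-- Jensen's inequality for ergodic averages -/
lemma jensen (f : X → ℝ) {p : ℝ} (hp : 1 ≤ p) {k : ℕ} (hk : 0 < k) (x : X) :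
    |S T f k x / k| ^ p ≤ S T (fun y => |f y| ^ p) k x / k := by
  have hk' : (0 : ℝ) < k := by exact_mod_cast hk
  have h1 : |S T f k x / k| ≤ ∑ i ∈ Finset.range k, (1 / (k : ℝ)) * |f (T^[i] x)| := by
    unfold S
    rw [abs_div, abs_of_pos hk', ← Finset.mul_sum, one_div, ← div_eq_inv_mul]
    exact div_le_div_of_nonneg_right (Finset.abs_sum_le_sum_abs _ _) hk'.le
  have h2 := Real.rpow_arith_mean_le_arith_mean_rpow (Finset.range k) (fun _ => 1 / (k : ℝ))
    (fun i => |f (T^[i] x)|) (fun _ _ => by positivity) (by simp [hk'.ne'])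
    (fun _ _ => abs_nonneg _) hp
  calc |S T f k x / k| ^ p ≤ (∑ i ∈ Finset.range k, (1 / (k : ℝ)) * |f (T^[i] x)|) ^ p :=
        Real.rpow_le_rpow (abs_nonneg _) h1 (by linarith)
    _ ≤ ∑ i ∈ Finset.range k, (1 / (k : ℝ)) * |f (T^[i] x)| ^ p := h2
    _ = _ := by
        unfold S
        rw [← Finset.mul_sum, one_div, ← div_eq_inv_mul]

/-- The ergodic maximal function of a function in `L^p` is integrable. -/
theorem lintegral_maximal_lt_top [IsProbabilityMeasure μ] (hT : MeasurePreserving T μ μ)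
    {f : X → ℝ} (hfm : Measurable f) {p : ℝ} (hp : 1 < p)
    (hf : Integrable (fun x => |f x| ^ p) μ) :
    ∫⁻ x, (⨆ k : ℕ, ENNReal.ofReal |S T f k x / k|) ∂μ < ∞ := by
  have hhm : Measurable (fun x => |f x| ^ p) := hfm.abs.pow_const p
  have hMm : Measurable (fun x => ⨆ k : ℕ, ENNReal.ofReal |S T f k x / k|) :=
    Measurable.iSup fun k =>
      ENNReal.measurable_ofReal.comp ((S_measurable hT.measurable hfm k).div_const _).abs
  refine (lintegral_le_tsum hMm).trans_lt ?_
  set C : ℝ := ∫ x, |f x| ^ p ∂μ with hC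
  have hC0 : 0 ≤ C := integral_nonneg fun x => by positivity
  have hlevel : ∀ n : ℕ, μ {x | (n : ℝ≥0∞) < ⨆ k : ℕ, ENNReal.ofReal |S T f k x / k|} ≤
      ENNReal.ofReal (if n = 0 then 1 else C * ((n : ℝ) ^ p)⁻¹) := by
    intro n
    by_cases hn : n = 0
    · rw [if_pos hn, ENNReal.ofReal_one]
      exact prob_le_one
    · rw [if_neg hn]
      have hn' : (0 : ℝ) < n := by exact_mod_cast Nat.pos_of_ne_zero hn
      have hnp : (0 : ℝ) < (n : ℝ) ^ p := Real.rpow_pos_of_pos hn' p
      have hsub : {x | (n : ℝ≥0∞) < ⨆ k : ℕ, ENNReal.ofReal |S T f k x / k|} ⊆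
          {x | ∃ k : ℕ, (k : ℝ) * ((n : ℝ) ^ p) < S T (fun y => |f y| ^ p) k x} := by
        intro x hx
        have hx' : (n : ℝ≥0∞) < ⨆ k : ℕ, ENNReal.ofReal |S T f k x / k| := hx
        obtain ⟨k, hk⟩ := lt_iSup_iff.1 hx'
        have hk1 : (n : ℝ) < |S T f k x / k| := by
          have h3 : ENNReal.ofReal n < ENNReal.ofReal |S T f k x / k| := by
            rwa [ENNReal.ofReal_natCast]
          exact (ENNReal.ofReal_lt_ofReal_iff_of_nonneg hn'.le).1 h3
        have hk0 : 0 < k := by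
          rcases Nat.eq_zero_or_pos k with h0 | h0
          · subst h0
            simp [S] at hk1
            linarith
          · exact h0
        have hk0' : (0 : ℝ) < k := by exact_mod_cast hk0
        refine ⟨k, ?_⟩
        have h4 := jensen (T := T) f hp.le hk0 x
        have h5 : (n : ℝ) ^ p < |S T f k x / k| ^ p := Real.rpow_lt_rpow hn'.le hk1 (by linarith)
        have h6 := lt_of_lt_of_le h5 h4
        rw [lt_div_iff₀ hk0'] at h6
        linarith
      have hw := weak_type hT hhm hf (fun x => by positivity) hnp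
      rw [← ENNReal.ofReal_toReal (measure_ne_top μ _)]
      apply ENNReal.ofReal_le_ofReal
      refine (measureReal_mono hsub (measure_ne_top _ _)).trans (hw.trans ?_)
      rw [div_eq_mul_inv]
  refine (ENNReal.tsum_le_tsum hlevel).trans_lt ?_
  rw [lt_top_iff_ne_top]
  apply Summable.tsum_ofReal_ne_top
  have hs : Summable fun n : ℕ => C * ((n : ℝ) ^ p)⁻¹ := (Real.summable_nat_rpow_inv.2 hp).mul_left C
  refine (summable_congr_cofinite ?_).2 hs
  rw [Nat.cofinite_eq_atTop]
  filter_upwards [eventually_ge_atTop 1] with n hn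
  rw [if_neg (by omega)]

end Q68.LD
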