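import Mathlib
import Pool.Agent.Q68.LD.Dom
import Pool.Agent.Q68.LD.Defs

/-! Ergodic Lebesgue differentiation from the Lebesgue differentiation property. -/

open MeasureTheory Filter Topology Set
open scoped ENNReal

namespace Q68.LD

open Q68.PET

variable {X : Type*} [MetricSpace X] [MeasurableSpace X] [BorelSpace X] {μ : Measure X}
  [IsProbabilityMeasure μ] {T : X → X}

/-- The result for measurable functions with an integrable ergodic maximal function. -/
theorem joint_of_measurable (hLD : LebesgueDifferentiation μ) (hT : MeasurePreserving T μ μ)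
    {f : X → ℝ} (hfm : Measurable f) (hf : Integrable f μ)
    (hM : ∫⁻ x, (⨆ k : ℕ, ENNReal.ofReal |S T f k x / k|) ∂μ < ∞) :
    ∀ᵐ x ∂μ, JointConvergence μ T f x := by
  have hle : MeasurableSpace.invariants T ≤ ‹MeasurableSpace X› := MeasurableSpace.invariants_le T
  obtain ⟨F, hF⟩ : ∃ F, F = μ[f | MeasurableSpace.invariants T] := ⟨_, rfl⟩
  have hFs : StronglyMeasurable[MeasurableSpace.invariants T] F := by
    rw [hF]; exact stronglyMeasurable_condExp
  have hFm : Measurable F := (hFs.mono hle).measurable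
  have hFi : Integrable F μ := by rw [hF]; exact integrable_condExp
  have hAm : ∀ k : ℕ, Measurable (ergAvg T k f) := fun k =>
    (S_measurable hT.measurable hfm k).div_const _
  have hAi : ∀ k : ℕ, Integrable (ergAvg T k f) μ := fun k =>
    (S_integrable hT hf k).div_const _
  -- the tail suprema
  let D : ℕ → X → ℝ := fun k x => |ergAvg T k f x - F x|
  have hDm : ∀ k, Measurable (D k) := fun k => ((hAm k).sub hFm).abs
  let G : ℕ → X → ℝ≥0∞ := fun K x => ⨆ k : ℕ, ENNReal.ofReal (D (K + k) x)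
  have hGm : ∀ K, Measurable (G K) := fun K =>
    Measurable.iSup fun k => ENNReal.measurable_ofReal.comp (hDm (K + k))
  have hGle : ∀ K x, G K x ≤ (⨆ k : ℕ, ENNReal.ofReal |S T f k x / k|) + ENNReal.ofReal |F x| := by
    intro K x
    refine iSup_le fun k => ?_
    have h1 : D (K + k) x ≤ |S T f (K + k) x / ((K + k : ℕ) : ℝ)| + |F x| := abs_sub _ _
    refine (ENNReal.ofReal_le_ofReal h1).trans ?_
    rw [ENNReal.ofReal_add (abs_nonneg _) (abs_nonneg _)]
    gcongr
    exact le_iSup (fun k : ℕ => ENNReal.ofReal |S T f k x / k|) (K + k)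
  have hGint : ∀ K, ∫⁻ x, G K x ∂μ ≠ ∞ := by
    intro K
    have h1 : ∫⁻ x, G K x ∂μ ≤ ∫⁻ x, ((⨆ k : ℕ, ENNReal.ofReal |S T f k x / k|) +
        ENNReal.ofReal |F x|) ∂μ := lintegral_mono (hGle K)
    have h2 : ∫⁻ x, ENNReal.ofReal |F x| ∂μ < ∞ := by
      have := hFi.norm.lintegral_lt_top
      simpa [Real.norm_eq_abs] using this
    rw [lintegral_add_right _ hFm.abs.ennreal_ofReal] at h1
    exact (h1.trans_lt (ENNReal.add_lt_top.2 ⟨hM, h2⟩)).ne
  have hGfin : ∀ K, ∀ᵐ x ∂μ, G K x < ∞ := fun K => ae_lt_top (hGm K) (hGint K)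
  have hgi : ∀ K, Integrable (fun x => (G K x).toReal) μ := fun K =>
    integrable_toReal_of_lintegral_ne_top (hGm K).aemeasurable (hGint K)
  have hlim := pointwise_of_measurable hT hfm hf
  rw [← hF] at hlim
  filter_upwards [hLD F hFi, ae_all_iff.2 fun K => hLD _ (hgi K), ae_all_iff.2 hGfin, hlim]
    with x h1 h2 h3 h4
  intro ε hε
  -- choose `K`
  have h5 : Tendsto (fun k => D k x) atTop (𝓝 0) := by
    have : Tendsto (fun k => ergAvg T k f x - F x) atTop (𝓝 (F x - F x)) := h4.sub_const (F x)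
    rw [sub_self] at this
    have := this.abs
    rwa [abs_zero] at this
  obtain ⟨K, hK⟩ := eventually_atTop.1 ((tendsto_order.1 h5).2 (ε / 4) (by positivity))
  have hGK : (G K x).toReal ≤ ε / 4 := by
    apply ENNReal.toReal_le_of_le_ofReal (by positivity)
    exact iSup_le fun k => ENNReal.ofReal_le_ofReal (hK (K + k) (by omega)).le
  have h6 := (tendsto_order.1 (h2 K)).2 ((G K x).toReal + ε / 4) (by linarith)
  have h7 : ∀ᶠ r in 𝓝[>] (0 : ℝ), |ballAvg μ r F x - F x| < ε / 4 := by
    have := (h1.sub_const (F x)).abs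
    rw [sub_self, abs_zero] at this
    exact (tendsto_order.1 this).2 (ε / 4) (by positivity)
  obtain ⟨δ, hδ, hsub⟩ := mem_nhdsGT_iff_exists_Ioo_subset.1 (h6.and h7)
  refine ⟨δ, hδ, K, fun r k hr0 hrδ hk => ?_⟩
  obtain ⟨h8, h9⟩ := hsub ⟨hr0, hrδ⟩
  have h10 : |ballAvg μ r (ergAvg T k f) x - ballAvg μ r F x| ≤
      ballAvg μ r (fun y => (G K y).toReal) x := by
    unfold ballAvg
    rw [← mul_sub, abs_mul, abs_of_nonneg (inv_nonneg.2 measureReal_nonneg),
      ← integral_sub (hAi k).integrableOn hFi.integrableOn]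
    apply mul_le_mul_of_nonneg_left _ (inv_nonneg.2 measureReal_nonneg)
    refine abs_integral_le_integral_abs.trans ?_
    apply integral_mono_ae ((hAi k).sub hFi).abs.integrableOn (hgi K).integrableOn
    refine ae_restrict_of_ae ?_
    filter_upwards [hGfin K] with y hy
    obtain ⟨j, rfl⟩ := Nat.exists_eq_add_of_le hk
    have h11 : ENNReal.ofReal (D (K + j) y) ≤ G K y :=
      le_iSup (fun k : ℕ => ENNReal.ofReal (D (K + k) y)) j
    exact (ENNReal.ofReal_le_iff_le_toReal hy.ne).1 h11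
  rw [← hF]
  have h12 := abs_sub_le (ballAvg μ r (ergAvg T k f) x) (ballAvg μ r F x) (F x)
  linarith

/-- The result for integrable functions with an integrable ergodic maximal function. -/
theorem joint_of_maximal (hLD : LebesgueDifferentiation μ) (hT : MeasurePreserving T μ μ)
    {f : X → ℝ} (hf : Integrable f μ)
    (hM : ∫⁻ x, (⨆ k : ℕ, ENNReal.ofReal |ergAvg T k f x|) ∂μ < ∞) :
    ∀ᵐ x ∂μ, JointConvergence μ T f x := by
  obtain ⟨g, hgm, hfg⟩ := hf.1.aemeasurable
  have hg : Integrable g μ := hf.congr hfg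
  have hit := ae_iterate hT hfg
  have hAe : ∀ k : ℕ, ergAvg T k f =ᵐ[μ] ergAvg T k g := by
    intro k
    filter_upwards [hit] with x hx
    unfold ergAvg
    rw [Finset.sum_congr rfl fun i _ => hx i]
  have hM' : ∫⁻ x, (⨆ k : ℕ, ENNReal.ofReal |S T g k x / k|) ∂μ < ∞ := by
    refine lt_of_le_of_lt (le_of_eq ?_) hM
    apply lintegral_congr_ae
    filter_upwards [ae_all_iff.2 hAe] with x hx
    refine iSup_congr fun k => ?_
    rw [hx k]
    rfl
  filter_upwards [joint_of_measurable hLD hT hgm hg hM',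
    condExp_congr_ae (m := MeasurableSpace.invariants T) hfg] with x h1 h2
  intro ε hε
  obtain ⟨δ, hδ, K, h3⟩ := h1 ε hε
  refine ⟨δ, hδ, K, fun r k hr0 hrδ hk => ?_⟩
  have h4 : ballAvg μ r (ergAvg T k f) x = ballAvg μ r (ergAvg T k g) x := by
    unfold ballAvg
    rw [integral_congr_ae (ae_restrict_of_ae (hAe k))]
  rw [h4, h2]
  exact h3 r k hr0 hrδ hk

/-- The result for `L^p` functions, `p > 1`. -/
theorem joint_of_memLp (hLD : LebesgueDifferentiation μ) (hT : MeasurePreserving T μ μ)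
    {p : ℝ≥0∞} (hp : 1 < p) {f : X → ℝ} (hf : MemLp f p μ) :
    ∀ᵐ x ∂μ, JointConvergence μ T f x := by
  obtain ⟨q, hq1, hqp, hqt⟩ : ∃ q : ℝ≥0∞, 1 < q ∧ q ≤ p ∧ q ≠ ∞ := by
    refine ⟨min p 2, lt_min hp (by norm_num), min_le_left _ _, ?_⟩
    exact ((min_le_right p 2).trans_lt (by simp)).ne
  have hfq : MemLp f q μ := hf.mono_exponent hqp
  obtain ⟨g, hgm, hfg⟩ := hf.1.aemeasurable
  have hgq : MemLp g q μ := hfq.ae_eq hfg
  have hr1 : 1 < q.toReal := by
    have := (ENNReal.toReal_lt_toReal (by simp) hqt).2 hq1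
    simpa using this
  have hgint : Integrable (fun x => |g x| ^ q.toReal) μ := by
    have := hgq.integrable_norm_rpow (by positivity) hqt
    simpa [Real.norm_eq_abs] using this
  have hgi : Integrable g μ := hgq.integrable hq1.le
  have hfi : Integrable f μ := hfq.integrable hq1.le
  have hmax := lintegral_maximal_lt_top hT hgm hr1 hgint
  apply joint_of_maximal hLD hT hfi
  refine lt_of_le_of_lt (le_of_eq ?_) hmax
  apply lintegral_congr_ae
  filter_upwards [ae_iterate hT hfg] with x hx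
  refine iSup_congr fun k => ?_
  unfold ergAvg S
  rw [Finset.sum_congr rfl fun i _ => hx i]

end Q68.LD
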