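import Pool.Agent.Q68.LD.Tr

/-!
# Project LD, job PTA: the pointwise bound for all random sets of the class
-/

set_option autoImplicit false

namespace Pool.Agent.Q68.LD

open Finset MeasureTheory Filter Pool.Agent.Q120.ET Pool.Agent.Q120.GM Pool.Agent.Q120.GE
  Pool.Agent.Q120.LD
open scoped Topology

/-- the event -/
def FP (δ ε : ℝ) (k : ℕ) (S : Set ℕ) : Prop :=
  ∃ x q a : ℕ, 2 ^ k ≤ x ∧ x < 2 ^ (k + 1) ∧ 1 ≤ q ∧ q ≤ x ∧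
    (x : ℝ) ^ ε * (√((x : ℝ) ^ (1 + δ) / q) + (x : ℝ) ^ δ) ≤ dev S q a x

theorem FP_tr (δ ε : ℝ) (Ω : Type) [MeasurableSpace Ω] (A : Ω → Set ℕ) (k : ℕ) (ω : Ω) :
    FP δ ε k ((tr A (low (k + 1)) ω : Finset ℕ) : Set ℕ) ↔ FP δ ε k (A ω) := by
  unfold FP
  refine exists_congr fun x => exists_congr fun q => exists_congr fun a =>
    and_congr_right fun _ => and_congr_right fun hx => ?_
  rw [dev_tr A ω hx]

theorem t_PTA : J_PTA := by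
  intro h1 h2 δ hδ hδ1 Ω _ μ _ A hA hD
  have key : ∀ j : ℕ, ∀ᵐ ω ∂μ, ∀ᶠ k : ℕ in atTop, ¬ FP δ (1 / ((j : ℝ) + 1)) k (A ω) := by
    intro j
    have hj : 0 < 1 / ((j : ℝ) + 1) := by positivity
    exact transfer (FP δ _) (fun Ω _ A k ω => FP_tr δ _ Ω A k ω) δ (1 / ((j : ℝ) + 1) / 2) hδ
      (by positivity) (h2 h1 δ _ hδ hδ1 hj) μ A hA hD
  filter_upwards [ae_all_iff.2 key] with ω hω ε hε
  obtain ⟨j, hj⟩ := exists_nat_gt (1 / ε)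
  have hj0 : (0 : ℝ) ≤ j := Nat.cast_nonneg j
  have hjε : 1 / ((j : ℝ) + 1) ≤ ε := by
    rw [div_lt_iff₀ hε] at hj
    rw [div_le_iff₀ (by positivity)]
    nlinarith
  obtain ⟨K, hK⟩ := eventually_atTop.1 (hω j)
  refine ⟨max 1 (2 * 2 ^ K), fun x q a hq hqx => ?_⟩
  have hx : 1 ≤ x := hq.trans hqx
  have hx1 : (1 : ℝ) ≤ x := by exact_mod_cast hx
  have hC1 : (1 : ℝ) ≤ max 1 (2 * 2 ^ K) := le_max_left _ _
  have hR0 : 0 ≤ √((x : ℝ) ^ (1 + δ) / q) + (x : ℝ) ^ δ := by positivity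
  have hRε : (0 : ℝ) ≤ (x : ℝ) ^ ε * (√((x : ℝ) ^ (1 + δ) / q) + (x : ℝ) ^ δ) := by positivity
  by_cases hxK : 2 ^ K ≤ x
  · obtain ⟨k, hk1, hk2, hk3⟩ := block hxK
    have h3 : dev (A ω) q a x < (x : ℝ) ^ (1 / ((j : ℝ) + 1)) *
        (√((x : ℝ) ^ (1 + δ) / q) + (x : ℝ) ^ δ) := by
      by_contra hcon
      push Not at hcon
      exact hK k hk1 ⟨x, q, a, hk2, hk3, hq, hqx, hcon⟩
    have h4 : (x : ℝ) ^ (1 / ((j : ℝ) + 1)) ≤ (x : ℝ) ^ ε :=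
      Real.rpow_le_rpow_of_exponent_le hx1 hjε
    calc dev (A ω) q a x ≤ (x : ℝ) ^ (1 / ((j : ℝ) + 1)) *
          (√((x : ℝ) ^ (1 + δ) / q) + (x : ℝ) ^ δ) := h3.le
      _ ≤ (x : ℝ) ^ ε * (√((x : ℝ) ^ (1 + δ) / q) + (x : ℝ) ^ δ) :=
          mul_le_mul_of_nonneg_right h4 hR0
      _ = 1 * ((x : ℝ) ^ ε * (√((x : ℝ) ^ (1 + δ) / q) + (x : ℝ) ^ δ)) := (one_mul _).symm
      _ ≤ _ := mul_le_mul_of_nonneg_right hC1 hRε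
  · push Not at hxK
    have hx2 : (x : ℝ) ≤ 2 ^ K := by exact_mod_cast hxK.le
    have h3 : (1 : ℝ) ≤ (x : ℝ) ^ ε := Real.one_le_rpow hx1 hε.le
    have h4 : (1 : ℝ) ≤ (x : ℝ) ^ δ := Real.one_le_rpow hx1 hδ
    have h5 : (1 : ℝ) ≤ (x : ℝ) ^ ε * (√((x : ℝ) ^ (1 + δ) / q) + (x : ℝ) ^ δ) := by
      have h6 : 0 ≤ √((x : ℝ) ^ (1 + δ) / q) := Real.sqrt_nonneg _
      nlinarith
    calc dev (A ω) q a x ≤ 2 * x := dev_le _ _ _ _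
      _ ≤ 2 * 2 ^ K := by linarith
      _ ≤ max 1 (2 * 2 ^ K) := le_max_right _ _
      _ = max 1 (2 * 2 ^ K) * 1 := (mul_one _).symm
      _ ≤ _ := mul_le_mul_of_nonneg_left h5 (by linarith)

end Pool.Agent.Q68.LD
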