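import Pool.Agent.Q120.LD.Stm

/-!
# Project LD: the transfer from the model to all random sets of the class
-/

set_option autoImplicit false

namespace Pool.Agent.Q68.LD

open Finset MeasureTheory Filter Pool.Agent.Q120.ET Pool.Agent.Q120.GM Pool.Agent.Q120.GE
  Pool.Agent.Q120.LD
open scoped Topology

/-- the transfer -/
theorem transfer (F : ℕ → Set ℕ → Prop)
    (hF : ∀ (Ω : Type) [MeasurableSpace Ω] (A : Ω → Set ℕ) (k : ℕ) (ω : Ω),
      F k ((tr A (low (k + 1)) ω : Finset ℕ) : Set ℕ) ↔ F k (A ω)) (δ β : ℝ) (hδ : 0 ≤ δ)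
    (hβ : 0 < β)
    (hm : ∀ᶠ k : ℕ in atTop, ∀ (Ω : Type) [MeasurableSpace Ω] (μ : Measure Ω)
      [IsProbabilityMeasure μ] (A : Ω → Set ℕ), IsModel μ pc A →
        μ.real {ω | F k (A ω)} ≤ Real.exp (-(2 : ℝ) ^ ((δ + β) * k)))
    {Ω : Type} [MeasurableSpace Ω] (μ : Measure Ω) [IsProbabilityMeasure μ] (A : Ω → Set ℕ)
    (hA : IsRandomSet A) (hD : Pool.Agent.Q120.RZ.Info μ A δ) :
    ∀ᵐ ω ∂μ, ∀ᶠ k : ℕ in atTop, ¬ F k (A ω) := by
  classical
  have hsum : Summable fun k : ℕ => 2 * ((2 : ℝ) ^ (-(β / 2))) ^ k := by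
    refine (summable_geometric_of_lt_one (by positivity) ?_).mul_left 2
    exact Real.rpow_lt_one_of_one_lt_of_neg (by norm_num) (by linarith)
  have hb : ∀ᶠ k : ℕ in atTop, μ.real {ω | F k (A ω)} ≤ 2 * ((2 : ℝ) ^ (-(β / 2))) ^ k := by
    filter_upwards [hD (β / 2) (by linarith), hm] with k h1 h2
    set u : ℝ := (2 : ℝ) ^ ((δ + β) * k) with hu
    have hu0 : 0 < u := by rw [hu]; positivity
    have h4 := Pool.Agent.Q111.GE.t_ENT Pool.Agent.Q111.GE.t_LAW k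
      (fun T : Finset ℕ => F k (T : Set ℕ)) u hu0 (by
        intro Ω' _ μ' _ A' hA'
        have e1 : {ω | F k ((tr A' (low (k + 1)) ω : Finset ℕ) : Set ℕ)} =
            {ω | F k (A' ω)} := by
          ext ω
          exact hF Ω' A' k ω
        rw [e1]
        exact h2 Ω' μ' A' hA') Ω μ A hA
    have e1 : {ω | F k ((tr A (low (k + 1)) ω : Finset ℕ) : Set ℕ)} = {ω | F k (A ω)} := by
      ext ω
      exact hF Ω A k ω
    rw [e1] at h4
    refine h4.trans ?_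
    rw [div_le_iff₀ hu0]
    have e2 : (1 : ℝ) ≤ (2 : ℝ) ^ ((δ + β / 2) * k) :=
      Real.one_le_rpow (by norm_num) (by positivity)
    have e3 : 2 * ((2 : ℝ) ^ (-(β / 2))) ^ k * u = 2 * (2 : ℝ) ^ ((δ + β / 2) * k) := by
      rw [hu, ← Real.rpow_natCast, ← Real.rpow_mul (by norm_num), mul_assoc,
        ← Real.rpow_add (by norm_num)]
      congr 2
      ring
    rw [e3]
    linarith
  filter_upwards [Pool.Agent.Q120.GM.bc hsum hb] with ω hω
  filter_upwards [hω] with k hk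
  exact hk

/-- the count only depends on the truncation -/
theorem cntA_tr {Ω : Type} [MeasurableSpace Ω] (A : Ω → Set ℕ) {k : ℕ} (ω : Ω) {x : ℕ}
    (hx : x < 2 ^ (k + 1)) (q a : ℕ) :
    cntA ((tr A (low (k + 1)) ω : Finset ℕ) : Set ℕ) q a x = cntA (A ω) q a x := by
  classical
  unfold cntA
  congr 1
  ext n
  simp only [mem_filter, mem_Icc, Finset.mem_coe]
  rw [mem_tr, low, mem_Ico]
  constructor
  · rintro ⟨h1, ⟨_, h3⟩, h4⟩
    exact ⟨h1, h3, h4⟩
  · rintro ⟨h1, h2, h3⟩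
    exact ⟨h1, ⟨⟨h1.1, lt_of_le_of_lt h1.2 hx⟩, h2⟩, h3⟩

theorem dev_tr {Ω : Type} [MeasurableSpace Ω] (A : Ω → Set ℕ) {k : ℕ} (ω : Ω) {x : ℕ}
    (hx : x < 2 ^ (k + 1)) (q a : ℕ) :
    dev ((tr A (low (k + 1)) ω : Finset ℕ) : Set ℕ) q a x = dev (A ω) q a x := by
  unfold dev
  rw [cntA_tr A ω hx]

theorem dev_nonneg (S : Set ℕ) (q a x : ℕ) : 0 ≤ dev S q a x := abs_nonneg _

/-- the trivial bound -/
theorem dev_le (S : Set ℕ) (q a x : ℕ) : dev S q a x ≤ 2 * x := by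
  classical
  have hcard : (Icc 3 x).card ≤ x := by
    rw [Nat.card_Icc]
    omega
  have h1 : (cntA S q a x : ℝ) ≤ x := by
    refine Nat.cast_le.2 ((card_le_card (filter_subset _ _)).trans hcard)
  have h2 : exA q a x ≤ x := by
    unfold exA
    calc ∑ n ∈ (Icc 3 x).filter (fun n => n % q = a % q), pc n
        ≤ ∑ n ∈ (Icc 3 x).filter (fun n => n % q = a % q), (1 : ℝ) :=
          sum_le_sum fun n _ => Pool.Agent.Q111.GE.pc_le_one n
      _ = (((Icc 3 x).filter (fun n => n % q = a % q)).card : ℝ) := by simp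
      _ ≤ x := Nat.cast_le.2 ((card_le_card (filter_subset _ _)).trans hcard)
  have h3 : 0 ≤ exA q a x := sum_nonneg fun n _ => Pool.Agent.Q111.GE.pc_nonneg n
  have h4 : (0 : ℝ) ≤ cntA S q a x := Nat.cast_nonneg _
  unfold dev
  rw [abs_le]
  constructor <;> linarith

/-- every positive integer lies in a block -/
theorem block {K x : ℕ} (hx : 2 ^ K ≤ x) : ∃ k, K ≤ k ∧ 2 ^ k ≤ x ∧ x < 2 ^ (k + 1) := by
  have hx0 : x ≠ 0 := by
    have : 0 < 2 ^ K := by positivity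
    omega
  refine ⟨Nat.log 2 x, ?_, Nat.pow_log_le_self 2 hx0, Nat.lt_pow_succ_log_self (by norm_num) x⟩
  exact (Nat.le_log_iff_pow_le (by norm_num) hx0).2 hx

end Pool.Agent.Q68.LD
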